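import Mathlib
import Pool.Agent.H455.AD2

set_option autoImplicit false

/-!
# MP_7475bd_nt: the abcd conjecture over `ℚ` for compressible terms with a compressible radical

Fix the number `n + 2` of terms, a finite set `S` of primes and bases `b_1, …, b_{n+2}`, `h` whose
prime factors are in `S`. A number is called simple if its digits (in the given base) form, read in
one of the two directions, a word with at most `z` Lempel-Ziv phrases, or if a multiple `k x`,
`1 ≤ k ≤ M`, is a sum of `z` terms `v b ^ l` with integers `|v| ≤ M`. Consider the solutions of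
`x_1 + … + x_{n+2} = 0` in nonzero integers without a common divisor such that

* every `x_i` is simple in its base `b_i`;
* the product `R` of the primes `p ∉ S` which divide `x_1 ⋯ x_{n+2}`, or the quotient of the part
  prime to `S` of this product by `R`, is simple in base `h`;
* no `x_i` is divisible by `p ^ (m + 1)` for a prime `p ∉ S`.

It is shown that `max |x_i| ≤ (2 M) ^ C R ^ (1 + ε)` for all these solutions outside of one proper
Zariski closed subset of the hyperplane, for every `ε > 0`; the subset and the constant `C` depend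
only on `n, S, b_i, h, z, m, ε`. Nothing is assumed about the greatest common divisors of the terms,
about the factors of the terms, or about the cofactors in the relations between the terms and a power
of the radical.

The proof: along a generic sequence of counterexamples all terms, the radical and the cofactors
`R ^ m / x_i` are (after passing to a subsequence, by Newton's approximation and the Subspace
theorem) sums of few `S`-units with slowly growing coefficients. The Subspace theorem is applied to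
all monomials of a large degree in the terms times the monomials in the cofactors: the relations
between the latter give the truncation. The needed tangent bases of the complement of the `n + 2`
hyperplanes are those of the Evertse-Ferretti-Corvaja-Zannier method.
-/

namespace Pool.Agent.Results.MP_7475bd_nt.CompressibleTerms

open Finset MvPolynomial

/-- The product of the primes outside of `S` which divide `n`. -/
def rad (S : Finset ℕ) (n : ℕ) : ℕ := ∏ p ∈ n.primeFactors with p ∉ S, p

/-- The part of `n` prime to the primes of `S`. -/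
def part (S : Finset ℕ) (n : ℕ) : ℕ := ∏ p ∈ n.primeFactors with p ∉ S, p ^ n.factorization p

/-- The letters in the positions `n ≤ j < m` of the word `a` form one phrase: it is a single letter,
or a copy of a block of letters starting `p` positions earlier (which may overlap the phrase). -/
def Phrase {α : Type} (a : ℕ → α) (n m : ℕ) : Prop :=
  m = n + 1 ∨ (n ≤ m ∧ ∃ p, 0 < p ∧ p ≤ n ∧ ∀ j, n ≤ j → j < m → a j = a (j - p))

/-- The word `a 0, …, a (L - 1)` is a concatenation of `z` phrases. -/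
def Compressible {α : Type} (a : ℕ → α) (L z : ℕ) : Prop :=
  ∃ c : ℕ → ℕ, c 0 = 0 ∧ c z = L ∧ ∀ i < z, Phrase a (c i) (c (i + 1))

/-- The digit of `|x|` in base `b` at the place `i` (the last digit has the place `0`). -/
def digit (b : ℕ) (x : ℤ) (i : ℕ) : ℕ := x.natAbs / b ^ i % b

/-- The number of digits of `|x|` in base `b`. -/
def places (b : ℕ) (x : ℤ) : ℕ := (Nat.digits b x.natAbs).length

/-- The digits of `|x|` in base `b`, read from the last to the first one or from the first to the
last one, form a word with `z` phrases. -/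
def CompressibleDigits (b z : ℕ) (x : ℤ) : Prop :=
  Compressible (fun j => digit b x j) (places b x) z ∨
    Compressible (fun j => digit b x (places b x - 1 - j)) (places b x) z

/-- A multiple `k x`, `1 ≤ k ≤ M`, is a sum of `z` terms `v b ^ l` with integers `|v| ≤ M`. -/
def FewPowers (b z : ℕ) (M : ℝ) (x : ℤ) : Prop :=
  ∃ (k : ℕ) (l : Fin z → ℕ) (v : Fin z → ℤ), 0 < k ∧ (k : ℝ) ≤ M ∧ (∀ j, |(v j : ℝ)| ≤ M) ∧
    (k : ℤ) * x = ∑ j, v j * (b : ℤ) ^ l j

/-- The digits in base `b` are compressible, or few powers of `b` suffice. -/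
def Simple (b z : ℕ) (M : ℝ) (x : ℤ) : Prop := CompressibleDigits b z x ∨ FewPowers b z M x

/-- **Main theorem.** -/
theorem result (S : Finset ℕ) (hS : ∀ p ∈ S, p.Prime) (n : ℕ) (b : Fin (n + 2) → ℕ) (h : ℕ)
    (hb : ∀ i, 2 ≤ b i) (hbS : ∀ i, (b i).primeFactors ⊆ S) (hh : 2 ≤ h)
    (hhS : h.primeFactors ⊆ S) (z m : ℕ) (ε : ℝ) (hε : 0 < ε) :
    ∃ (Φ : MvPolynomial (Fin (n + 1)) ℚ) (C : ℕ), Φ ≠ 0 ∧ (∃ d, Φ.IsHomogeneous d) ∧
      ∀ (M : ℝ) (x : Fin (n + 2) → ℤ), 1 ≤ M → (∀ i, x i ≠ 0) → ∑ i, x i = 0 →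
      (∀ p : ℕ, p.Prime → ∃ i, ¬ (p : ℤ) ∣ x i) →
      (∀ i, Simple (b i) z M (x i)) →
      (Simple h z M (rad S (∏ i, x i).natAbs) ∨
        ∃ q : ℤ, q * rad S (∏ i, x i).natAbs = part S (∏ i, x i).natAbs ∧ Simple h z M q) →
      (∀ p : ℕ, p.Prime → p ∉ S → ∀ i, ¬ (p : ℤ) ^ (m + 1) ∣ x i) →
      aeval (fun i : Fin (n + 1) => (x i.castSucc : ℚ)) Φ ≠ 0 →
      ∀ i, |(x i : ℝ)| ≤ (2 * M) ^ C * (rad S (∏ i, x i).natAbs : ℝ) ^ (1 + ε) := by
  classical
  have hl2 : 0 < Real.log 2 := Real.log_pos (by norm_num)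
  obtain ⟨Φ1, C1, hΦ1, hC1⟩ := Pool.Agent.H455.AD.main hS n m z True ε hε
    (Sum.elim b fun _ => h) (fun i => by rcases i with i | i; exacts [hb i, hh])
    (fun i => by rcases i with i | i; exacts [hbS i, hhS])
  obtain ⟨Φ2, C2, hΦ2, hC2⟩ := Pool.Agent.H455.AD.main hS n m z False ε hε
    (Sum.elim b fun _ => h) (fun i => by rcases i with i | i; exacts [hb i, hh])
    (fun i => by rcases i with i | i; exacts [hbS i, hhS])
  obtain ⟨⟨d, hd⟩, w, -, hw⟩ := Pool.Agent.H455.TR.Good.mul Pool.Agent.H455.AD.irr hΦ1 hΦ2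
  obtain ⟨C3, hC3⟩ : ∃ C3 : ℝ, C3 = |C1| + |C2| + (n + 1) := ⟨_, rfl⟩
  have hC30 : 0 ≤ C3 := by
    rw [hC3]
    positivity
  obtain ⟨N, hN⟩ := exists_nat_ge (C3 / Real.log 2)
  rw [div_le_iff₀ hl2] at hN
  refine ⟨Φ1 * Φ2, N, fun h0 => hw (by rw [h0, map_zero]), ⟨d, hd⟩, ?_⟩
  intro M x hM hx0 hsum hcop hx hr hm hΦ i
  rw [map_mul] at hΦ
  have hlM : 0 ≤ Real.log M := Real.log_nonneg hM
  have hCM : C3 * (1 + Real.log M) ≤ N * Real.log (2 * M) := by
    rw [Real.log_mul (by norm_num) (by linarith)]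
    have h4 : Real.log 2 ≤ 1 := by
      have := Real.log_two_lt_d9
      linarith
    have h5 : (N : ℝ) * Real.log 2 * Real.log M ≤ N * Real.log M := by
      have h6 : (0 : ℝ) ≤ N * Real.log M := mul_nonneg (Nat.cast_nonneg _) hlM
      nlinarith
    nlinarith
  have hr1 : 1 ≤ rad S (∏ i, x i).natAbs := Pool.Agent.H455.AD.rd_pos _
  have hr1R : (1 : ℝ) ≤ rad S (∏ i, x i).natAbs := by exact_mod_cast hr1
  have hm' : ∀ p : ℕ, p.Prime → p ∉ S → ∀ i, (x i).natAbs.factorization p ≤ m := by
    intro p hp hpS i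
    by_contra hcon
    push Not at hcon
    apply hm p hp hpS i
    have h1 : p ^ (m + 1) ∣ (x i).natAbs :=
      (hp.pow_dvd_iff_le_factorization (Int.natAbs_ne_zero.2 (hx0 i))).2 (by omega)
    have h2 := Int.natCast_dvd.2 h1
    exact_mod_cast h2
  -- it suffices to bound the logarithm
  have hfin : ∀ (alt : Prop) (P : Pool.Agent.H455.AD.APt S n m alt) (C : ℝ), P.x = x → P.M = M →
      |C| ≤ C3 - (n + 1) → P.H ≤ (1 + ε) * Real.log P.ρ + C * (1 + Real.log P.M) →
      |(x i : ℝ)| ≤ (2 * M) ^ N * (rad S (∏ i, x i).natAbs : ℝ) ^ (1 + ε) := by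
    intro alt P C hPx hPM hC h1
    have h2 := P.x_le i
    rw [hPx] at h2
    have h3 : (P.ρ : ℝ) = (rad S (∏ i, x i).natAbs : ℝ) := by
      unfold Pool.Agent.H455.AD.APt.ρ
      rw [hPx]
      rfl
    rw [h3, hPM] at h1
    have h4 : |(x i : ℝ)| ≤ ((n : ℝ) + 1) * P.Y := by
      have h5 : |(x i : ℝ)| = (((x i).natAbs : ℕ) : ℝ) := by
        rw [Nat.cast_natAbs, Int.cast_abs]
      rw [h5]
      exact_mod_cast h2
    have hY : (0 : ℝ) < P.Y := by exact_mod_cast P.one_le_Y
    have h0 : 0 < |(x i : ℝ)| := by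
      rw [abs_pos]
      exact_mod_cast hx0 i
    rw [← Real.log_le_log_iff h0 (by positivity), Real.log_mul (by positivity) (by positivity),
      Real.log_pow, Real.log_rpow (by linarith)]
    have h5 := Real.log_le_log h0 h4
    rw [Real.log_mul (by positivity) hY.ne'] at h5
    have h6 : Real.log ((n : ℝ) + 1) ≤ n + 1 := by
      have := Real.log_le_sub_one_of_pos (by positivity : (0 : ℝ) < (n : ℝ) + 1)
      linarith
    have h7 : Real.log (P.Y : ℝ) = P.H := rfl
    have h8 : C * (1 + Real.log M) ≤ (C3 - (n + 1)) * (1 + Real.log M) :=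
      mul_le_mul_of_nonneg_right ((le_abs_self C).trans hC) (by linarith)
    have h9 : (0 : ℝ) ≤ ((n : ℝ) + 1) * Real.log M := by positivity
    rw [h7] at h5
    nlinarith
  have hbase : ∀ (P : Fin (n + 2) ⊕ Unit → ℤ), (∀ i, P (Sum.inl i) = x i) →
      Simple h z M (P (Sum.inr ())) → ∀ i, Simple (Sum.elim b (fun _ => h) i) z M (P i) := by
    intro P hP hu i
    rcases i with i | i
    · rw [hP]
      exact hx i
    · exact hu
  rcases hr with hr | ⟨q, hq, hr⟩
  · obtain ⟨P, hPx, hPZ, hPM⟩ : ∃ P : Pool.Agent.H455.AD.APt S n m True,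
        P.x = x ∧ P.Z = rad S (∏ i, x i).natAbs ∧ P.M = M :=
      ⟨⟨x, rad S (∏ i, x i).natAbs, M, hx0, hsum, hcop, hm', Or.inl ⟨trivial, rfl⟩, hM⟩,
        rfl, rfl, rfl⟩
    refine hfin True P C1 hPx hPM ?_ (hC1 P (fun i => ?_) ?_)
    · rw [hC3]
      have := abs_nonneg C2
      linarith
    · have h1 := hbase P.z (fun i => by unfold Pool.Agent.H455.AD.APt.z; rw [← hPx]; rfl)
        (by unfold Pool.Agent.H455.AD.APt.z; rw [Sum.elim_inr, hPZ]; exact hr) i
      rw [hPM]
      exact h1
    · unfold Pool.Agent.H455.AD.APt.y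
      rw [hPx]
      exact left_ne_zero_of_mul hΦ
  · obtain ⟨P, hPx, hPZ, hPM⟩ : ∃ P : Pool.Agent.H455.AD.APt S n m False,
        P.x = x ∧ P.Z = q ∧ P.M = M :=
      ⟨⟨x, q, M, hx0, hsum, hcop, hm', Or.inr ⟨not_false, hq⟩, hM⟩, rfl, rfl, rfl⟩
    refine hfin False P C2 hPx hPM ?_ (hC2 P (fun i => ?_) ?_)
    · rw [hC3]
      have := abs_nonneg C1
      linarith
    · have h1 := hbase P.z (fun i => by unfold Pool.Agent.H455.AD.APt.z; rw [← hPx]; rfl)
        (by unfold Pool.Agent.H455.AD.APt.z; rw [Sum.elim_inr, hPZ]; exact hr) i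
      rw [hPM]
      exact h1
    · unfold Pool.Agent.H455.AD.APt.y
      rw [hPx]
      exact right_ne_zero_of_mul hΦ

end Pool.Agent.Results.MP_7475bd_nt.CompressibleTerms
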