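import Mathlib
import Pool.Agent.H432.TC.AbcP
import Pool.Agent.H432.AQ.Irr

set_option autoImplicit false

/-!
# The `n`-term abc inequality on all curves of bounded degree follows from its case `n = 3`

The `n`-term abc conjecture over a number field `K` states that for all `n ≥ 3` and `ε > 0` there are
a proper closed subset `Z` of the hyperplane `H : z_1 + … + z_n = 0` and a constant `C` such that
`h(P) < (1 + ε) rad(P) + C` for all points `P` of `H(K)` outside `Z` with nonzero coordinates. For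
`n = 3` this is the abc conjecture over `K`. It is known that `Z` must depend on `ε` for `n ≥ 4`, with
degree tending to infinity as `ε` tends to zero.

We consider the points on curves of arbitrary genus: a curve in `H` over `K` of complexity at most `N`
is given by a plane curve `P = 0` of degree at most `N`, irreducible over `K`, and a rational map
`φ = (φ_1 : ⋯ : φ_n)` from it to `H`, where the `φ_l` are polynomials over `K` of degree at most `N`.

The theorem: for all `n ≥ 3` and `N` there is a proper closed subset `Z` of `H`, defined over `ℚ`, such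
that for every number field `K` over which the abc conjecture holds, all curves over `K` in `H` of
complexity at most `N` which are not contained in `Z` or in a coordinate hyperplane and all `ε > 0`
there is `C` with `h(P) < (1 + ε) rad(P) + C` for all points `P` of the curve with nonzero coordinates
which come from points of the plane curve over `K`. Here `Z` depends only on `n` and `N`, not on `ε` or
the field `K`. Conversely this inequality over `K` for `n = 3`, `N = 1` implies the abc conjecture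
over `K`.
-/

namespace Pool.Agent.Results.MP_7475bd_nt.CurvesOfBoundedDegree

open NumberField IsDedekindDomain MvPolynomial

/-- The height `h(P)`. -/
noncomputable def height {K : Type} [Field K] [NumberField K] {n : ℕ} (z : Fin n → K) : ℝ :=
  Height.logHeight z / Module.finrank ℚ K

open Classical in
/-- `rad(P)`: the sum of `log N(v)` over the primes `v` at which the valuations of the coordinates are
not all equal, divided by the degree of the field. -/
noncomputable def rad {K : Type} [Field K] [NumberField K] {n : ℕ} (z : Fin n → K) : ℝ :=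
  (∑ᶠ v : HeightOneSpectrum (𝓞 K), if ∀ i j, v.valuation K (z i) = v.valuation K (z j) then 0
    else Real.log (Ideal.absNorm v.asIdeal)) / Module.finrank ℚ K

/-- The abc conjecture over `K`: the case `n = 3`. -/
def ABC (K : Type) [Field K] [NumberField K] : Prop :=
  ∀ ε : ℝ, 0 < ε → ∃ C : ℝ, ∀ z : Fin 3 → K, ∑ i, z i = 0 → (∀ i, z i ≠ 0) →
    height z < (1 + ε) * rad z + C

/-- A curve of complexity at most `N` over `K` in the hyperplane `z_1 + … + z_n = 0`, given by the plane
curve `P = 0` and the rational map `φ`: `P` is irreducible over `K`, the degrees of `P` and of the `φ l`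
are at most `N`, and the sum of the `φ l` vanishes on the curve `P = 0`. -/
def IsCurve {K : Type} [Field K] {n : ℕ} (N : ℕ) (P : MvPolynomial (Fin 2) K)
    (φ : Fin n → MvPolynomial (Fin 2) K) : Prop :=
  Irreducible P ∧ P.totalDegree ≤ N ∧ (∀ l, (φ l).totalDegree ≤ N) ∧ P ∣ ∑ l, φ l

/-- The inequality on the curves over `K` of complexity at most `N` which are not contained in the zero
set of `Φ` or in a coordinate hyperplane: for every such curve `(P, φ)` and all `ε > 0` there is `C` with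
`h(x) < (1 + ε) rad(x) + C` for all points `x = φ(z)` with nonzero coordinates, where `z ∈ K^2` is a
point of the curve `P = 0`. -/
def OnCurves (K : Type) [Field K] [NumberField K] {n : ℕ} (N : ℕ) (Φ : MvPolynomial (Fin n) ℚ) :
    Prop :=
  ∀ (P : MvPolynomial (Fin 2) K) (φ : Fin n → MvPolynomial (Fin 2) K), IsCurve N P φ →
    ¬ P ∣ aeval φ Φ → (∀ l, ¬ P ∣ φ l) → ∀ ε : ℝ, 0 < ε →
    ∃ C : ℝ, ∀ z : Fin 2 → K, eval z P = 0 → (∀ l, eval z (φ l) ≠ 0) →
      height (fun l => eval z (φ l)) < (1 + ε) * rad (fun l => eval z (φ l)) + C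

/-! ### The hyperplane -/

/-- the equation of the hyperplane -/
noncomputable def ell (n : ℕ) : MvPolynomial (Fin n) ℚ := ∑ i, X i

theorem aeval_ell {R : Type} [CommRing R] [Algebra ℚ R] {n : ℕ} (z : Fin n → R) :
    aeval z (ell n) = ∑ i, z i := by
  unfold ell
  rw [map_sum]
  exact Finset.sum_congr rfl fun i _ => aeval_X _ _

theorem ell_ne {n : ℕ} : ell (n + 1) ≠ 0 := by
  intro h0
  have h1 := aeval_ell (R := ℚ) (fun i : Fin (n + 1) => if i = 0 then 1 else 0)
  rw [h0, map_zero] at h1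
  simp at h1

theorem ell_irr {n : ℕ} : Irreducible (ell (n + 1)) := by
  have hhom : (ell (n + 1)).IsHomogeneous 1 :=
    IsHomogeneous.sum _ _ _ fun i _ => isHomogeneous_X _ _
  refine irreducible_of_totalDegree_eq_one (hhom.totalDegree ell_ne) fun x hx => ?_
  rw [isUnit_iff_ne_zero]
  rintro rfl
  apply ell_ne (n := n)
  ext m
  rw [coeff_zero]
  exact zero_dvd_iff.1 (hx m)

theorem span_prime {n : ℕ} :
    (Ideal.span (Set.range fun _ : Fin 1 => ell (n + 1))).IsPrime := by
  rw [Set.range_const]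
  exact (Ideal.span_singleton_prime ell_ne).2 ell_irr.prime

/-- the hyperplane -/
def HP (Ω : Type) [Field Ω] (n : ℕ) : Submodule Ω (Fin n → Ω) :=
  LinearMap.ker (∑ j, LinearMap.proj (R := Ω) (φ := fun _ : Fin n => Ω) j)

theorem mem_HP {Ω : Type} [Field Ω] {n : ℕ} {v : Fin n → Ω} : v ∈ HP Ω n ↔ ∑ j, v j = 0 := by
  unfold HP
  rw [LinearMap.mem_ker, LinearMap.sum_apply]
  rfl

theorem TS_eq {Ω : Type} [Field Ω] [Algebra ℚ Ω] {n : ℕ} (z : Fin n → Ω) :
    Pool.Agent.N750.TS (fun _ : Fin 1 => ell n) z = HP Ω n := by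
  ext v
  rw [mem_HP, Pool.Agent.N750.mem_TS]
  have h1 : ∀ j, aeval z (pderiv j (ell n)) = (1 : Ω) := by
    intro j
    unfold ell
    rw [map_sum, map_sum]
    have h2 : ∀ i, aeval z (pderiv j (X i : MvPolynomial (Fin n) ℚ)) =
        if i = j then (1 : Ω) else 0 := by
      intro i
      rw [pderiv_X]
      by_cases hij : i = j
      · subst hij
        rw [Pi.single_eq_same, if_pos rfl, map_one]
      · rw [Pi.single_eq_of_ne hij, if_neg hij, map_zero]
    rw [Finset.sum_congr rfl fun i _ => h2 i]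
    simp
  simp only [h1, one_mul]
  exact ⟨fun h => h 0, fun h _ => h⟩

theorem finrank_HP {Ω : Type} [Field Ω] {n : ℕ} : Module.finrank Ω (HP Ω (n + 1)) = n := by
  have h1 := Module.Dual.finrank_ker_add_one_of_ne_zero (K := Ω) (V₁ := Fin (n + 1) → Ω)
    (f := ∑ j, LinearMap.proj (R := Ω) (φ := fun _ : Fin (n + 1) => Ω) j) (by
      intro h0
      have h1 := LinearMap.congr_fun h0 (fun i => if i = 0 then 1 else 0)
      rw [LinearMap.sum_apply] at h1
      simp at h1)
  rw [Module.finrank_fin_fun] at h1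
  unfold HP
  omega

theorem sm {n : ℕ} : Pool.Agent.N750.Sm (n + 1) (fun _ : Fin 1 => ell (n + 3)) := by
  intro Ω _ _ z hz hzG
  rw [TS_eq]
  exact finrank_HP

theorem nc {n : ℕ} : Pool.Agent.H432.RC.NCD (fun _ : Fin 1 => ell (n + 3))
    (fun (i : Fin (n + 3)) (_ : Fin 1) => (X i : MvPolynomial (Fin (n + 3)) ℚ)) := by
  intro Ω _ _ z hz hzG
  refine ⟨fun _ => 0, fun c hc hv => ?_⟩
  have h1 : ∀ v : Fin (n + 3) → Ω, ∑ j, v j = 0 → ∑ i, c i * v i = 0 := by
    intro v hv0
    have h2 := hv v (by rw [TS_eq]; exact mem_HP.2 hv0)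
    have h3 : ∀ i, ∑ l, aeval z (pderiv l (X i : MvPolynomial (Fin (n + 3)) ℚ)) * v l = v i := by
      intro i
      rw [Finset.sum_eq_single i]
      · rw [pderiv_X_self, map_one, one_mul]
      · intro l _ hl
        rw [pderiv_X_of_ne hl.symm, map_zero, zero_mul]
      · intro hi
        exact absurd (Finset.mem_univ i) hi
    rw [← h2]
    exact Finset.sum_congr rfl fun i _ => by rw [h3 i]
  obtain ⟨j, hj⟩ := Function.ne_iff.1 hz
  have hcj : c j = 0 := by
    by_contra hne
    have h2 := hc j hne 0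
    rw [aeval_X] at h2
    exact hj h2
  funext i
  by_cases hij : i = j
  · rw [hij, hcj]
    rfl
  · have h2 := h1 (fun l => (if l = i then 1 else 0) - (if l = j then 1 else 0)) (by
      rw [Finset.sum_sub_distrib]
      simp)
    simp only [mul_sub, mul_ite, mul_one, mul_zero] at h2
    rw [Finset.sum_sub_distrib] at h2
    simp only [Finset.sum_ite_eq', Finset.mem_univ, if_true] at h2
    rw [hcj, sub_zero] at h2
    exact h2

/-! ### The radical -/

theorem rad3_eq {K : Type} [Field K] [NumberField K] (z : Fin 3 → K) :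
    rad z = Pool.Agent.Q290.NF.wt (Pool.Agent.H432.TC.NE3 z) / Module.finrank ℚ K := by
  unfold rad Pool.Agent.Q290.NF.wt
  congr 1
  refine finsum_congr fun v => ?_
  by_cases h : ∀ i j, v.valuation K (z i) = v.valuation K (z j)
  · rw [if_pos h, Pool.Agent.Q290.NF.ind_neg fun h' => h' h]
  · rw [if_neg h, Pool.Agent.Q290.NF.ind_pos (P := Pool.Agent.H432.TC.NE3 z) h]
    rfl

theorem DM_iff {K : Type} [Field K] [NumberField K] {n : ℕ} (x : Fin (n + 3) → K)
    (v : HeightOneSpectrum (𝓞 K)) :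
    Pool.Agent.H432.TC.DM (fun (i : Fin (n + 3)) (_ : Fin 1) =>
      (X i : MvPolynomial (Fin (n + 3)) ℚ)) (fun _ => 1) x v ↔
      ¬ ∀ i j, v.valuation K (x i) = v.valuation K (x j) := by
  set f := Pool.Agent.W180.OP.av (Sum.inr v : Pool.Agent.W180.OP.Pl K) with hf
  constructor
  · rintro ⟨i, hi⟩ heq
    have h1 := hi 0
    rw [pow_one, aeval_X] at h1
    obtain ⟨l, hl⟩ := Pool.Agent.W180.OP.exists_nrm f (n := n + 3) (by omega) x
    rw [← hl] at h1
    have h2 : v.valuation K (x i) < v.valuation K (x l) := Pool.Agent.H432.TC.mk_lt_iff.1 h1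
    rw [heq i l] at h2
    exact lt_irrefl _ h2
  · intro h
    push Not at h
    obtain ⟨i, j, hij⟩ := h
    have key : ∀ i j, v.valuation K (x i) < v.valuation K (x j) →
        ∃ i, ∀ _ : Fin 1, f (aeval x (X i : MvPolynomial (Fin (n + 3)) ℚ)) <
          Pool.Agent.W180.OP.nrm f x ^ 1 := by
      intro i j hlt
      refine ⟨i, fun _ => ?_⟩
      rw [pow_one, aeval_X]
      have h1 : f (x i) < f (x j) := Pool.Agent.H432.TC.mk_lt_iff.2 hlt
      exact h1.trans_le (Pool.Agent.W180.OP.le_nrm f x j)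
    rcases lt_or_gt_of_ne hij with h1 | h1
    · exact key i j h1
    · exact key j i h1

theorem rad_eq {K : Type} [Field K] [NumberField K] {n : ℕ} (x : Fin (n + 3) → K) :
    rad x = Pool.Agent.Q290.NF.wt (fun v => v ∉ (∅ : Finset (HeightOneSpectrum (𝓞 K))) ∧
      Pool.Agent.H432.TC.DM (fun (i : Fin (n + 3)) (_ : Fin 1) =>
        (X i : MvPolynomial (Fin (n + 3)) ℚ)) (fun _ => 1) x v) / Module.finrank ℚ K := by
  unfold rad Pool.Agent.Q290.NF.wt
  congr 1
  refine finsum_congr fun v => ?_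
  by_cases h : ∀ i j, v.valuation K (x i) = v.valuation K (x j)
  · rw [if_pos h, Pool.Agent.Q290.NF.ind_neg fun h' => (DM_iff x v).1 h'.2 h]
  · rw [if_neg h, Pool.Agent.Q290.NF.ind_pos
      (P := fun v => v ∉ (∅ : Finset (HeightOneSpectrum (𝓞 K))) ∧
      Pool.Agent.H432.TC.DM (fun (i : Fin (n + 3)) (_ : Fin 1) =>
        (X i : MvPolynomial (Fin (n + 3)) ℚ)) (fun _ => 1) x v)
      ⟨Finset.notMem_empty v, (DM_iff x v).2 h⟩]
    rfl

/-! ### The abc conjecture implies the inequality on curves -/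

theorem of_abc (n N : ℕ) : ∃ (m : ℕ) (Φ : MvPolynomial (Fin (n + 3)) ℚ), Φ.IsHomogeneous m ∧
    ¬ (∑ i, X i) ∣ Φ ∧ ∀ (K : Type) [Field K] [NumberField K], ABC K → OnCurves K N Φ := by
  classical
  set G : Fin 1 → MvPolynomial (Fin (n + 3)) ℚ := fun _ => ell (n + 3) with hG
  set F : Fin (n + 3) → Fin 1 → MvPolynomial (Fin (n + 3)) ℚ := fun i _ => X i with hF
  have hGh : ∀ i, (G i).IsHomogeneous 1 := fun _ =>
    IsHomogeneous.sum _ _ _ fun i _ => isHomogeneous_X _ _
  obtain ⟨m, Φ, hΦm, hΦI, hmain⟩ := Pool.Agent.H432.AQ.main_irr G (fun _ => 1) hGh span_prime sm F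
    (fun _ => 1) (fun i _ => isHomogeneous_X _ _) nc N
  refine ⟨m, Φ, hΦm, ?_, ?_⟩
  · intro hdvd
    apply hΦI
    rw [hG, Set.range_const]
    exact Ideal.mem_span_singleton.2 hdvd
  intro K _ _ habc P φ hc hz hD ε hε
  have hd : (0 : ℝ) < Module.finrank ℚ K := by exact_mod_cast Module.finrank_pos
  have hthin : Pool.Agent.Results.MP_4d5ce1_nt.ThinSetsSuffice.ThinPoints K 0 := by
    refine (Pool.Agent.Results.MP_4d5ce1_nt.ThinSetsSuffice.result K 0).2.2 ?_
    refine Pool.Agent.H432.TC.abc_all fun ε' hε' => ?_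
    obtain ⟨C, hC⟩ := habc ε' hε'
    refine ⟨C, fun P h0 h1 => ?_⟩
    have h3 : ∀ i, P i ≠ 0 := by
      intro i hi
      apply h1
      fin_cases i
      · rw [show P 0 = 0 from hi, zero_mul, zero_mul]
      · rw [show P 1 = 0 from hi, mul_zero, zero_mul]
      · rw [show P 2 = 0 from hi, mul_zero]
    have h2 := hC P (by rw [Fin.sum_univ_three]; exact h0) h3
    rw [rad3_eq] at h2
    exact h2
  have hall : ∀ ε : ℝ, 0 < ε → ∃ C : ℝ, ∀ u : K, Pool.Agent.Q290.NF.Gen u⁻¹ →
      (1 - ε) * Height.logHeight₁ u⁻¹ ≤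
        Pool.Agent.Q290.NF.wt (fun v => Pool.Agent.Q290.NF.Near u⁻¹ v) + C := by
    intro ε' hε'
    obtain ⟨C, hC⟩ := Pool.Agent.Results.MP_4d5ce1_nt.ThinSetsSuffice.thin_engine hthin ε' hε'
    refine ⟨C, fun u hu => ?_⟩
    have h1 := hC u
    rw [Pool.Agent.Q290.NF.tv_zero] at h1
    exact h1 hu
  have hφG : ∀ i, P ∣ aeval φ (G i) := by
    intro i
    rw [show G i = ell (n + 3) from rfl, aeval_ell]
    exact hc.2.2.2
  have hφF : ∀ i, ∃ j, ¬ P ∣ aeval φ (F i j) := by
    intro i
    refine ⟨0, ?_⟩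
    rw [show F i 0 = X i from rfl, aeval_X]
    exact hD i
  obtain ⟨C, hC⟩ := hmain K hall P φ hc.1 hc.2.1 hc.2.2.1 hφG hz hφF ∅ (ε / (1 + ε))
    (by positivity)
  refine ⟨(1 + ε) * |C| / Module.finrank ℚ K + 1, fun z hzP hzφ => ?_⟩
  have hx0 : Pool.Agent.H432.AC.pt φ z ≠ 0 := fun h => hzφ 0 (congrFun h 0)
  have hxF : ∀ i, ∃ j, aeval (Pool.Agent.H432.AC.pt φ z) (F i j) ≠ 0 := by
    intro i
    refine ⟨0, ?_⟩
    rw [show F i 0 = X i from rfl, aeval_X]
    exact hzφ i
  let b := Module.finBasisOfFinrankEq K (HP K (n + 3)) (finrank_HP (n := n + 2))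
  have hTB : Pool.Agent.N750.IsTB (p := n + 2) G (Pool.Agent.H432.AC.pt φ z)
      (fun l c => (b c : Fin (n + 3) → K) l) := by
    refine ⟨?_, fun c => ?_⟩
    · exact b.linearIndependent.map' (HP K (n + 3)).subtype (Submodule.ker_subtype _)
    · rw [TS_eq]
      exact (b c).2
  have h1 := hC z hzP hx0 hxF _ hTB
  unfold Pool.Agent.H432.AC.LHS at h1
  have e1 : ∀ i, Height.logHeight (fun j => aeval (Pool.Agent.H432.AC.pt φ z) (F i j)) = 0 :=
    fun i => Pool.Agent.N750.logHeight_one _
  simp only [e1] at h1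
  rw [Finset.sum_const, Finset.card_univ, Fintype.card_fin, nsmul_eq_mul] at h1
  have e2 := Height.logHeight_nonneg (Pool.Agent.N750.mv
    (fun l (c : Fin (n + 2)) => (b c : Fin (n + 3) → K) l))
  have e3 : Pool.Agent.H432.AC.pt φ z = fun l => eval z (φ l) := rfl
  rw [e3] at h1
  rw [rad_eq]
  set x : Fin (n + 3) → K := fun l => eval z (φ l) with hx
  set W := Pool.Agent.Q290.NF.wt (fun v => v ∉ (∅ : Finset (HeightOneSpectrum (𝓞 K))) ∧
      Pool.Agent.H432.TC.DM (fun (i : Fin (n + 3)) (_ : Fin 1) =>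
        (X i : MvPolynomial (Fin (n + 3)) ℚ)) (fun _ => 1) x v) with hW
  have h2 : Height.logHeight x ≤ W + ε / (1 + ε) * Height.logHeight x + C := by
    have h3 := h1
    push_cast at h3
    linarith
  have h4 : Height.logHeight x ≤ (1 + ε) * (W + C) := by
    have e4 : Height.logHeight x * (1 / (1 + ε)) ≤ W + C := by
      have e5 : Height.logHeight x * (1 / (1 + ε)) =
          Height.logHeight x - ε / (1 + ε) * Height.logHeight x := by
        field_simp
        ring
      rw [e5]
      linarith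
    have e6 := mul_le_mul_of_nonneg_left e4 (by linarith : (0 : ℝ) ≤ 1 + ε)
    have e7 : (1 + ε) * (Height.logHeight x * (1 / (1 + ε))) = Height.logHeight x := by
      field_simp
    rw [e7] at e6
    exact e6
  have h5 : (1 + ε) * (W + C) ≤ (1 + ε) * W + (1 + ε) * |C| := by
    rw [mul_add]
    have := mul_le_mul_of_nonneg_left (le_abs_self C) (by linarith : (0 : ℝ) ≤ 1 + ε)
    linarith
  have h6 := div_le_div_of_nonneg_right (h4.trans h5) hd.le
  unfold height
  rw [add_div, mul_div_assoc] at h6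
  linarith

/-! ### The converse -/

/-- a form in three variables which vanishes at the points `(a : b : -a-b)` is divisible by the
equation of the line -/
theorem dvd_of_zero (Φ : MvPolynomial (Fin 3) ℚ)
    (h : aeval (![X 0, X 1, -X 0 - X 1] : Fin 3 → MvPolynomial (Fin 2) ℚ) Φ = 0) :
    (∑ i, X i) ∣ Φ := by
  set I : Ideal (MvPolynomial (Fin 3) ℚ) := Ideal.span {∑ i, X i} with hI
  let ψ : MvPolynomial (Fin 3) ℚ →ₐ[ℚ] MvPolynomial (Fin 2) ℚ := aeval ![X 0, X 1, -X 0 - X 1]
  let θ : MvPolynomial (Fin 2) ℚ →ₐ[ℚ] MvPolynomial (Fin 3) ℚ := aeval ![X 0, X 1]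
  have h1 : Ideal.Quotient.mkₐ ℚ I = (Ideal.Quotient.mkₐ ℚ I).comp (θ.comp ψ) := by
    refine MvPolynomial.algHom_ext fun i => ?_
    show Ideal.Quotient.mk I (X i) = Ideal.Quotient.mk I (θ (ψ (X i)))
    fin_cases i
    · show _ = Ideal.Quotient.mk I (θ (aeval _ (X 0)))
      rw [aeval_X]
      show _ = Ideal.Quotient.mk I (aeval _ (X 0))
      rw [aeval_X]
      rfl
    · show _ = Ideal.Quotient.mk I (θ (aeval _ (X 1)))
      rw [aeval_X]
      show _ = Ideal.Quotient.mk I (aeval _ (X 1))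
      rw [aeval_X]
      rfl
    · show _ = Ideal.Quotient.mk I (θ (aeval _ (X 2)))
      rw [aeval_X]
      show _ = Ideal.Quotient.mk I (aeval _ (-X 0 - X 1))
      rw [map_sub, map_neg, aeval_X, aeval_X]
      show Ideal.Quotient.mk I (X 2) = Ideal.Quotient.mk I (-X 0 - X 1)
      rw [Ideal.Quotient.mk_eq_mk_iff_sub_mem, hI, Ideal.mem_span_singleton, Fin.sum_univ_three]
      exact ⟨1, by ring⟩
  have h2 : Ideal.Quotient.mk I Φ = Ideal.Quotient.mk I (θ (ψ Φ)) := AlgHom.congr_fun h1 Φ
  have h3 : ψ Φ = 0 := h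
  rw [h3, map_zero, map_zero, Ideal.Quotient.eq_zero_iff_mem, hI, Ideal.mem_span_singleton] at h2
  exact h2

theorem to_abc (K : Type) [Field K] [NumberField K]
    (h : ∃ (m : ℕ) (Φ : MvPolynomial (Fin 3) ℚ), Φ.IsHomogeneous m ∧
      ¬ (∑ i, X i) ∣ Φ ∧ OnCurves K 1 Φ) : ABC K := by
  classical
  obtain ⟨m, Φ, hΦh, hΦI, hΦ⟩ := h
  set P0 : MvPolynomial (Fin 2) K := X 1 with hP0
  set φ : Fin 3 → MvPolynomial (Fin 2) K := ![X 0, 1, -X 0 - 1] with hφ
  have hcL : ∀ z : Fin 2 → K, (fun l => eval z (φ l)) = ![z 0, 1, -z 0 - 1] := by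
    intro z
    funext l
    fin_cases l
    · show eval z (X 0 : MvPolynomial (Fin 2) K) = z 0
      rw [eval_X]
    · show eval z (1 : MvPolynomial (Fin 2) K) = 1
      rw [map_one]
    · show eval z (-X 0 - 1 : MvPolynomial (Fin 2) K) = -z 0 - 1
      rw [map_sub, map_neg, eval_X, map_one]
  have hrc : IsCurve 1 P0 φ := by
    refine ⟨(MvPolynomial.X_prime).irreducible, ?_, ?_, ?_⟩
    · rw [hP0, totalDegree_X]
    · intro l
      fin_cases l
      · show (X 0 : MvPolynomial (Fin 2) K).totalDegree ≤ 1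
        rw [totalDegree_X]
      · show (1 : MvPolynomial (Fin 2) K).totalDegree ≤ 1
        rw [totalDegree_one]
        exact zero_le_one
      · show (-X 0 - 1 : MvPolynomial (Fin 2) K).totalDegree ≤ 1
        refine (totalDegree_sub _ _).trans (max_le ?_ ?_)
        · rw [totalDegree_neg, totalDegree_X]
        · rw [totalDegree_one]
          exact zero_le_one
    · rw [Fin.sum_univ_three]
      show P0 ∣ X 0 + 1 + (-X 0 - 1)
      rw [show (X 0 + 1 + (-X 0 - 1) : MvPolynomial (Fin 2) K) = 0 by ring]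
      exact dvd_zero _
  have hz1 : ¬ P0 ∣ aeval φ Φ := by
    rintro ⟨R, hR⟩
    have hval : ∀ a : ℚ, aeval (![a, 1, -a - 1] : Fin 3 → ℚ) Φ = 0 := by
      intro a
      have h1 := congrArg (eval ![algebraMap ℚ K a, 0]) hR
      rw [map_mul, hP0, eval_X] at h1
      have h2 : (![algebraMap ℚ K a, 0] : Fin 2 → K) 1 = 0 := rfl
      rw [h2, zero_mul] at h1
      have h3 := MvPolynomial.comp_aeval_apply φ
        ((MvPolynomial.aeval (![algebraMap ℚ K a, 0] : Fin 2 → K) :
          MvPolynomial (Fin 2) K →ₐ[K] K).restrictScalars ℚ) Φ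
      have h4 : eval ![algebraMap ℚ K a, 0] (aeval φ Φ) =
          aeval (fun l => eval ![algebraMap ℚ K a, 0] (φ l)) Φ := h3
      have h5 : (fun l => eval ![algebraMap ℚ K a, 0] (φ l)) =
          fun i => algebraMap ℚ K ((![a, 1, -a - 1] : Fin 3 → ℚ) i) := by
        rw [hcL]
        funext i
        fin_cases i
        · rfl
        · exact (map_one _).symm
        · show -(algebraMap ℚ K a) - 1 = algebraMap ℚ K (-a - 1)
          rw [map_sub, map_neg, map_one]
      rw [h4, h5, Pool.Agent.H432.RC.aeval_am] at h1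
      exact (map_eq_zero _).1 h1
    set Ψ : MvPolynomial (Fin 2) ℚ :=
      aeval (![X 0, X 1, -X 0 - X 1] : Fin 3 → MvPolynomial (Fin 2) ℚ) Φ with hΨ
    have hΨe : ∀ z : Fin 2 → ℚ, eval z Ψ = aeval (![z 0, z 1, -z 0 - z 1] : Fin 3 → ℚ) Φ := by
      intro z
      have h3 := MvPolynomial.comp_aeval_apply
        (![X 0, X 1, -X 0 - X 1] : Fin 3 → MvPolynomial (Fin 2) ℚ)
        (MvPolynomial.aeval z : MvPolynomial (Fin 2) ℚ →ₐ[ℚ] ℚ) Φ
      have h4 : eval z Ψ = aeval (fun l => aeval z
          ((![X 0, X 1, -X 0 - X 1] : Fin 3 → MvPolynomial (Fin 2) ℚ) l)) Φ := h3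
      rw [h4]
      congr 1
      congr 1
      funext l
      fin_cases l
      · show aeval z (X 0 : MvPolynomial (Fin 2) ℚ) = z 0
        rw [aeval_X]
      · show aeval z (X 1 : MvPolynomial (Fin 2) ℚ) = z 1
        rw [aeval_X]
      · show aeval z (-X 0 - X 1 : MvPolynomial (Fin 2) ℚ) = -z 0 - z 1
        rw [map_sub, map_neg, aeval_X, aeval_X]
    have hmul : ∀ z : Fin 2 → ℚ, eval z (X 1 * Ψ) = 0 := by
      intro z
      rw [map_mul, eval_X]
      by_cases hz : z 1 = 0
      · rw [hz, zero_mul]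
      · have h6 : (![z 0, z 1, -z 0 - z 1] : Fin 3 → ℚ) =
            fun i => z 1 * (![z 0 / z 1, 1, -(z 0 / z 1) - 1] : Fin 3 → ℚ) i := by
          funext i
          fin_cases i
          · show z 0 = z 1 * (z 0 / z 1)
            field_simp
          · show z 1 = z 1 * 1
            ring
          · show -z 0 - z 1 = z 1 * (-(z 0 / z 1) - 1)
            field_simp
        have h7 : eval z Ψ = 0 := by
          rw [hΨe, h6, Pool.Agent.H432.RC.aeval_hom hΦh, hval, mul_zero]
        rw [h7, mul_zero]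
    have h8 : (X 1 * Ψ : MvPolynomial (Fin 2) ℚ) = 0 :=
      MvPolynomial.funext fun z => by
        rw [map_zero]
        exact hmul z
    rcases mul_eq_zero.1 h8 with h9 | h9
    · exact (X_ne_zero (1 : Fin 2)) h9
    · exact hΦI (dvd_of_zero Φ h9)
  have hz2 : ∀ l, ¬ P0 ∣ φ l := by
    intro l
    rintro ⟨R, hR⟩
    have h1 := congrArg (eval ![1, 0]) hR
    rw [map_mul, hP0, eval_X] at h1
    have h2 : (![1, 0] : Fin 2 → K) 1 = 0 := rfl
    rw [h2, zero_mul] at h1
    have h4 := congrFun (hcL ![1, 0]) l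
    have h5 : eval ![1, 0] (φ l) = (![1, 1, -1 - 1] : Fin 3 → K) l := h4
    rw [h5] at h1
    revert h1
    fin_cases l
    · exact one_ne_zero
    · exact one_ne_zero
    · show (-1 - 1 : K) ≠ 0
      intro h0
      apply two_ne_zero (α := K)
      linear_combination -h0
  intro ε hε
  obtain ⟨C, hC⟩ := hΦ P0 φ hrc hz1 hz2 ε hε
  refine ⟨C, fun P hP0' hP1 => ?_⟩
  have hne := hP1 1
  have h1 := hC ![P 0 / P 1, 0] (by rw [hP0, eval_X]; rfl) (by
    intro l
    have h4 := congrFun (hcL ![P 0 / P 1, 0]) l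
    have h5 : eval ![P 0 / P 1, 0] (φ l) = (![P 0 / P 1, 1, -(P 0 / P 1) - 1] : Fin 3 → K) l := h4
    rw [h5]
    fin_cases l
    · exact div_ne_zero (hP1 0) hne
    · exact one_ne_zero
    · show -(P 0 / P 1) - 1 ≠ 0
      intro h0
      apply hP1 2
      rw [Fin.sum_univ_three] at hP0'
      field_simp at h0
      linear_combination hP0' + h0)
  have h2 : (fun l => eval ![P 0 / P 1, 0] (φ l)) = (P 1)⁻¹ • P := by
    rw [hcL]
    funext l
    rw [Pi.smul_apply, smul_eq_mul]
    fin_cases l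
    · show P 0 / P 1 = (P 1)⁻¹ * P 0
      field_simp
    · show (1 : K) = (P 1)⁻¹ * P 1
      field_simp
    · show -(P 0 / P 1) - 1 = (P 1)⁻¹ * P 2
      rw [Fin.sum_univ_three] at hP0'
      field_simp
      linear_combination -hP0'
  rw [h2] at h1
  have h3 : height ((P 1)⁻¹ • P) = height P := by
    unfold height
    rw [Height.logHeight_smul_eq_logHeight _ (inv_ne_zero hne)]
  have h4 : rad ((P 1)⁻¹ • P) = rad P := by
    unfold rad
    congr 1
    refine finsum_congr fun v => ?_
    have h5 : (∀ i j, v.valuation K (((P 1)⁻¹ • P) i) = v.valuation K (((P 1)⁻¹ • P) j)) ↔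
        ∀ i j, v.valuation K (P i) = v.valuation K (P j) := by
      refine forall_congr' fun i => forall_congr' fun j => ?_
      rw [Pi.smul_apply, Pi.smul_apply, smul_eq_mul, smul_eq_mul, map_mul, map_mul]
      exact mul_right_inj' ((Valuation.ne_zero_iff _).2 (inv_ne_zero hne))
    by_cases h6 : ∀ i j, v.valuation K (P i) = v.valuation K (P j)
    · rw [if_pos h6, if_pos (h5.2 h6)]
    · rw [if_neg h6, if_neg fun h7 => h6 (h5.1 h7)]
  rw [h3, h4] at h1
  exact h1

/-- **The `n`-term abc inequality on curves.** For all `n ≥ 3` and `N` there is a form `Φ` over `ℚ` which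
does not vanish on the hyperplane `z_1 + … + z_n = 0` such that for every number field `K` the abc
conjecture over `K` (the case `n = 3`) implies the `n`-term abc inequality with `1 + ε` for the points on
all curves over `K` of complexity at most `N` and of any genus in the hyperplane, which are not contained
in the zero set of `Φ` or in a coordinate hyperplane; `Φ` does not depend on `K` and `ε`. Conversely, the
inequality for `n = 3` and `N = 1` implies the abc conjecture over `K`. -/
theorem result :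
    (∀ n : ℕ, 3 ≤ n → ∀ N : ℕ, ∃ (m : ℕ) (Φ : MvPolynomial (Fin n) ℚ), Φ.IsHomogeneous m ∧
      ¬ (∑ i, X i) ∣ Φ ∧ ∀ (K : Type) [Field K] [NumberField K], ABC K → OnCurves K N Φ) ∧
    ∀ (K : Type) [Field K] [NumberField K],
      ABC K ↔ ∃ (m : ℕ) (Φ : MvPolynomial (Fin 3) ℚ), Φ.IsHomogeneous m ∧
        ¬ (∑ i, X i) ∣ Φ ∧ OnCurves K 1 Φ := by
  refine ⟨fun n hn N => ?_, fun K _ _ => ⟨fun h => ?_, to_abc K⟩⟩
  · obtain ⟨n', rfl⟩ : ∃ n', n = n' + 3 := ⟨n - 3, by omega⟩
    exact of_abc n' N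
  · obtain ⟨m, Φ, h1, h2, h3⟩ := of_abc 0 1
    exact ⟨m, Φ, h1, h2, h3 K h⟩

end Pool.Agent.Results.MP_7475bd_nt.CurvesOfBoundedDegree
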